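import Pool.Agent.Work.MP_d8e5f7_ag.GB.Main

/-!
# Direct factors of indecomposable polarized complex tori (for instance of Jacobians)

A complex torus is a finite-dimensional complex vector space with a lattice. Definitions in
`GB/Stmts.lean`: `IsLat Λ`: `Λ` is discrete and spans the space over the reals. `IsHom Λ Λ' φ`: the
complex linear map `φ` maps `Λ` into `Λ'`. `Pol Γ F`: `F` is a polarization (Riemann form) of
`W / Γ`. `Indec Γ F`: `(W / Γ, F)` is not a product of two nonzero polarized tori.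
`Simple Λ`: the torus is not zero and has no subtori except zero and itself.

Let `A` be the product of the simple tori `V i / Λ i`, without nonzero homomorphisms between
different factors, `B = V' / Λ'`, and let `J = W / Γ` be isomorphic to `A × B` by `e` as a complex
torus. If `J` has an indecomposable polarization, and `A` has at least two factors or `B ≠ 0`, then
there is a homomorphism `A → B` with finite kernel, and `2 dim A ≤ dim J`.
-/

set_option autoImplicit false

open Pool.Agent.Work.MP_d8e5f7_ag.GB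

theorem Pool.Agent.Results.MP_d8e5f7_ag.GenusOfSummands.result :
    ∀ (ι : Type) [Fintype ι] [Nonempty ι] (V : ι → Type)
      [∀ i, NormedAddCommGroup (V i)] [∀ i, NormedSpace ℂ (V i)]
      [∀ i, FiniteDimensional ℂ (V i)] (Λ : ∀ i, Submodule ℤ (V i))
      (V' : Type) [NormedAddCommGroup V'] [NormedSpace ℂ V'] [FiniteDimensional ℂ V']
      (Λ' : Submodule ℤ V')
      (W : Type) [NormedAddCommGroup W] [NormedSpace ℂ W] [FiniteDimensional ℂ W]
      (Γ : Submodule ℤ W) (F : W →ₗ[ℝ] W →ₗ[ℝ] ℝ) (e : ((∀ i, V i) × V') ≃ₗ[ℂ] W),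
      (∀ i, IsLat (Λ i)) → IsLat Λ' → (∀ i, Simple (Λ i)) →
      (∀ i j, i ≠ j → ∀ φ : V i →ₗ[ℂ] V j, IsHom (Λ i) (Λ j) φ → φ = 0) →
      Pol Γ F → Indec Γ F → (∀ x, e x ∈ Γ ↔ (∀ i, x.1 i ∈ Λ i) ∧ x.2 ∈ Λ') →
      2 ≤ Fintype.card ι ∨ Nontrivial V' →
      (∃ φ : (∀ i, V i) →ₗ[ℂ] V', Function.Injective φ ∧
        ∀ x, (∀ i, x i ∈ Λ i) → φ x ∈ Λ') ∧
      2 * Module.finrank ℂ (∀ i, V i) ≤ Module.finrank ℂ W :=
  gb
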